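import Pool.Agent.H37.SP.Stm

/-! Crew SP, parts HAR, BOX, BND, NGE. -/

set_option autoImplicit false

namespace Pool.Agent.H69.SP

open Finset Pool.Agent.H37.SP

lemma har_aux (T : ℕ) (hT : 1 ≤ T) (m : ℕ) (hm : T ≤ m) :
    Real.log ((m : ℝ) + 1) - Real.log T ≤ ∑ n ∈ Finset.Icc T m, (1 : ℝ) / n := by
  have key : ∀ n : ℕ, 1 ≤ n → Real.log ((n : ℝ) + 1) - Real.log n ≤ 1 / n := by
    intro n hn
    have hn' : (0 : ℝ) < n := by exact_mod_cast hn
    rw [← Real.log_div (by positivity) (by positivity)]
    have h := Real.log_le_sub_one_of_pos (x := ((n : ℝ) + 1) / n) (by positivity)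
    have e : ((n : ℝ) + 1) / n - 1 = 1 / n := by field_simp; ring
    rwa [e] at h
  induction m, hm using Nat.le_induction with
  | base =>
    rw [Finset.Icc_self, Finset.sum_singleton]
    exact key T hT
  | succ m hm ih =>
    rw [Finset.sum_Icc_succ_top (by omega)]
    have h := key (m + 1) (by omega)
    push_cast at h ⊢
    linarith

theorem t_HAR : S_HAR := by
  intro T hT
  have hT' : (1 : ℝ) ≤ T := by exact_mod_cast hT
  have h := har_aux T hT (T ^ 2) (by nlinarith)
  refine le_trans ?_ h
  have h1 : Real.log ((T : ℝ) ^ 2) ≤ Real.log (((T ^ 2 : ℕ) : ℝ) + 1) := by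
    apply Real.log_le_log (by positivity)
    push_cast
    linarith
  rw [Real.log_pow] at h1
  push_cast at h1 ⊢
  linarith

theorem t_BOX (h1 : S_HAR) : S_BOX := by
  intro s t ht
  have hlog : 0 ≤ Real.log t := Real.log_natCast_nonneg t
  have hT : ∀ i : Fin s, t ≤ T t i := by
    intro i
    unfold T
    calc t = t ^ 1 := (pow_one t).symm
      _ ≤ t ^ 5 ^ (i : ℕ) := Nat.pow_le_pow_right (by omega) (Nat.one_le_pow _ _ (by norm_num))
  have e : ∑ a ∈ Box s t, (1 : ℝ) / (prd a : ℝ) =
      ∏ i : Fin s, ∑ n ∈ Finset.Icc (T t i) (T t i ^ 2), (1 : ℝ) / n := by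
    rw [Finset.prod_univ_sum]
    unfold Box
    apply Finset.sum_congr rfl
    intro a _
    unfold prd
    push_cast
    simp [Finset.prod_inv_distrib]
  rw [e]
  calc Real.log t ^ s = ∏ _i : Fin s, Real.log t := by simp
    _ ≤ ∏ i : Fin s, ∑ n ∈ Finset.Icc (T t i) (T t i ^ 2), (1 : ℝ) / n := by
        apply Finset.prod_le_prod
        · intro i _; exact hlog
        · intro i _
          refine le_trans ?_ (h1 (T t i) (by have := hT i; omega))
          apply Real.log_le_log
          · have : 0 < t := by omega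
            exact_mod_cast this
          · exact_mod_cast hT i

lemma geom2 (s : ℕ) : 10 * (∑ i ∈ Finset.range s, 5 ^ i * 2) + 5 = 5 ^ (s + 1) := by
  induction s with
  | zero => simp
  | succ s ih =>
    rw [Finset.sum_range_succ, pow_succ 5 (s + 1), pow_succ 5 s]
    rw [pow_succ 5 s] at ih
    omega

lemma sum_sub_lt (s : ℕ) : ∀ a : Fin s → ℕ, (∀ i, 1 ≤ a i) → ∑ i, (a i - 1) < ∏ i, a i := by
  induction s with
  | zero => intro a _; simp
  | succ s ih =>
    intro a ha
    rw [Fin.prod_univ_castSucc, Fin.sum_univ_castSucc]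
    have h := ih (fun i => a i.castSucc) (fun i => ha _)
    have hl := ha (Fin.last s)
    obtain ⟨x, hx⟩ : ∃ x, a (Fin.last s) = x + 1 := ⟨a (Fin.last s) - 1, by omega⟩
    rw [hx]
    set P := ∏ i : Fin s, a i.castSucc
    set S := ∑ i : Fin s, (a i.castSucc - 1)
    have hP : 1 ≤ P := by omega
    have : P * (x + 1) = P * x + P := by ring
    rw [this]
    have h3 : x ≤ P * x := Nat.le_mul_of_pos_left x hP
    omega

theorem t_BND : S_BND := by
  intro s t ht a ha
  unfold Box at ha
  rw [Fintype.mem_piFinset] at ha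
  have hT : ∀ i : Fin s, 1 ≤ T t i := by
    intro i
    unfold T
    exact Nat.one_le_pow _ _ (by omega)
  constructor
  · have h1 : prd a ≤ t ^ (∑ i ∈ Finset.range s, 5 ^ i * 2) := by
      rw [← Finset.prod_pow_eq_pow_sum, Finset.prod_range]
      unfold prd
      apply Finset.prod_le_prod'
      intro i _
      have := (Finset.mem_Icc.mp (ha i)).2
      unfold T at this
      rwa [← pow_mul] at this
    calc prd a ^ 10 ≤ (t ^ (∑ i ∈ Finset.range s, 5 ^ i * 2)) ^ 10 := Nat.pow_le_pow_left h1 10
      _ = t ^ ((∑ i ∈ Finset.range s, 5 ^ i * 2) * 10) := by rw [← pow_mul]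
      _ ≤ t ^ 5 ^ (s + 1) := by
          apply Nat.pow_le_pow_right (by omega)
          have := geom2 s
          omega
      _ = Y s t := rfl
  · unfold sg prd
    apply sum_sub_lt
    intro i
    exact le_trans (hT i) (Finset.mem_Icc.mp (ha i)).1

theorem t_NGE (h1 : S_FIN) : S_NGE := by
  intro k P hk h
  choose! f hf c hc hmax hprod using h
  have hinj : Set.InjOn f (P : Set ℕ) := by
    intro p hp q hq hpq
    have h1 : c p = c q := by
      apply le_antisymm
      · apply hmax q hq
        rw [← hpq]; exact hc p hp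
      · apply hmax p hp
        rw [hpq]; exact hc q hq
    have h2 : (p + 1) * c p = (q + 1) * c q := by
      rw [← hprod p hp, ← hprod q hq, hpq]
    have hpos : 0 < c p := (hf p hp).2.1 _ (hc p hp)
    rw [h1] at h2
    rw [h1] at hpos
    have := Nat.eq_of_mul_eq_mul_right hpos h2
    omega
  unfold N
  have : (f '' (P : Set ℕ)).ncard ≤ (solSet k).ncard := by
    apply Set.ncard_le_ncard _ (h1 k hk)
    rintro _ ⟨p, hp, rfl⟩
    exact hf p hp
  rwa [Set.InjOn.ncard_image hinj, Set.ncard_coe_finset] at this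

end Pool.Agent.H69.SP
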